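import Pool.Agent.Q311.LN.Ort

/-!
# Products of orthogonal Shimura varieties: the hyperbolic analytic subspace conjecture at almost all points

Let `S` be a product of Shimura varieties of orthogonal groups. The symmetric space is the product of the symmetric spaces
of type IV of groups `SO(2, r j)`, `j ∈ κ` (for a group over a totally real field which is definite at all but one
real places there is one factor), where factors may be repeated. Consider families of Hodge structures of K3 type over a
variety `W` with Zariski dense monodromy in the product of the groups `SO (J j)`, `J j` the intersection forms on the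
transcendental parts, `U` a chart of `W`. The families are given by their period matrices `Y x j` of size `r j + 2` (the
first row are the periods of the form of type `(2, 0)`, with respect to bases of the de Rham cohomology adapted to
the Hodge filtration with the antidiagonal intersection matrix, times `μ j`). A special point `o` gives frames `N j`,
consisting of eigenvectors of a torus through `o`, adapted to the Hodge decomposition at `o`, and the coordinates of
the Harish-Chandra realisation at `o` are the quotients of the entries number `1, ..., r j` of the first row of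
`Y x j * N j` by the entry number `0`. The coordinates of `T_o X` are indexed by a set `I`; the coordinate number `i`
is `a i` times the coordinate with place `c i`. They are chosen such that `w ∈ T_o X` is rational for the geometric
structure if all `w i` are algebraic; it is rational for the arithmetic structure if all `lam i * w i` are algebraic
(`lam i` is a quotient of periods at `o`).

The subspace `V'` of the vectors with `w i / a i = w k / a k` if `c i = c k` contains the points `z` of the family. It is
the tangent space of the special subvariety, of diagonal type, which contains the image of the family, and it is a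
`bi-ℚ̄`-subspace (1). The conjecture predicts for a general algebraic point `z` of the family that every subspace
`V ⊆ T_o X` which is rational for the arithmetic structure and contains `z` contains `V'`. We prove this (2) up to bounds
`ω T → ∞` for the size of the equations of `V` and the degree of the number fields, for all points of height at most `T`
outside few hypersurfaces of small degree. If `c` is injective (there are no two equal factors) then `V' = T_o X`.
-/

set_option autoImplicit false

open Filter NumberField Matrix Pool.Agent.Q311.MV Pool.Agent.Q311.LN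
open Pool.Agent.Y119.PLM (MT Ix IsMon)
open Pool.Agent.Y890.MV (InnerM)

namespace Pool.Agent.Results.MP_1e27bd_ag.OrthogonalShimuraVarieties

/-- **Families with dense monodromy in a product of special orthogonal groups**, given by their period matrices `Y x j`
of size `r j + 2`, with frames `N j`. `Qst m` is the antidiagonal matrix. -/
structure Family {X κ : Type} [Fintype X] (U : Set (X → ℂ)) (r : κ → ℕ) (μ : κ → ℂ) (J : MT (szo r))
    (Y : (X → ℂ) → MT (szo r)) (N : MT (szo r)) : Prop where
  isOpen : IsOpen U
  isPreconnected : IsPreconnected U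
  nonempty : U.Nonempty
  pos : ∀ j, 0 < r j
  analytic : ∀ j a b, AnalyticOnNhd ℂ (fun x => Y x j a b) U
  /-- the intersection forms, `J j` on the rational and `μ j` times the antidiagonal form on the de Rham cohomology -/
  form : ∀ j, μ j ≠ 0 ∧ ∀ x ∈ U, (Y x j)ᵀ * (μ j • Qst (r j + 2)) * Y x j = J j
  /-- polynomials which vanish on the monodromy vanish on the product of the special orthogonal groups -/
  dense : DenseIn U Y {g | ∀ j, (g j)ᵀ * J j * g j = J j ∧ (g j).det = 1}
  /-- the frames have antidiagonal intersection matrix -/
  frame : ∀ j, (N j)ᵀ * J j * N j = Qst (r j + 2)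
  /-- the points of the family are in the chart at `o` -/
  chart : ∀ x ∈ U, ∀ j, (Y x j * N j) 0 0 ≠ 0

/-- The point `z` of `T_o X` which corresponds to the point `x` of the family: the coordinate number `i` is `a i` times
the quotient of two entries of the first row of `Y x j * N j`, `c i = (j, b)`. -/
noncomputable def point {X κ I : Type} {r : κ → ℕ} (Y : (X → ℂ) → MT (szo r)) (N : MT (szo r)) (c : I → PlcO r)
    (a : I → ℂ) (x : X → ℂ) : I → ℂ :=
  fun i => a i * crdO (Y x (c i).1) (N (c i).1) (c i).2

/-- the subspace of the vectors `w` such that `w i = a i * u (c i)` for some `u` -/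
def diagonal {I J : Type} (c : I → J) (a : I → ℂ) : Submodule ℂ (I → ℂ) where
  carrier := {w | ∃ u : J → ℂ, ∀ i, w i = a i * u (c i)}
  zero_mem' := ⟨0, fun i => by simp⟩
  add_mem' := by
    rintro v w ⟨u, hu⟩ ⟨t, ht⟩
    exact ⟨u + t, fun i => by rw [Pi.add_apply, hu, ht, Pi.add_apply, mul_add]⟩
  smul_mem' := by
    rintro t w ⟨u, hu⟩
    exact ⟨t • u, fun i => by rw [Pi.smul_apply, hu, Pi.smul_apply, smul_eq_mul, smul_eq_mul, mul_left_comm]⟩

/-- `V` is rational for the `ℚ̄`-structure of the vectors `w` with algebraic `lam i * w i` -/
def Rational {I : Type} (lam : I → ℂ) (V : Submodule ℂ (I → ℂ)) : Prop :=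
  V = Submodule.span ℂ {w | w ∈ V ∧ ∀ i, IsAlgebraic ℚ (lam i * w i)}

/-- `V` is defined by equations `∑ i, c i * lam i * w i = 0` whose coefficients `c i` are integers of `K` with all
conjugates at most `T ^ k` -/
def Defined {I : Type} [Fintype I] (lam : I → ℂ) (k : ℕ) (K : Type) [Field K] [NumberField K] (io : K →+* ℂ) (T : ℝ)
    (V : Submodule ℂ (I → ℂ)) : Prop :=
  ∃ E : Set (I → 𝓞 K), (∀ c ∈ E, ∀ i (φ : K →+* ℂ), ‖φ (c i : K)‖ ≤ T ^ k) ∧
    ∀ w, w ∈ V ↔ ∀ c ∈ E, ∑ i, io (c i : K) * (lam i * w i) = 0

/-- the points with coordinates in `K` of height at most `T`, of norm at most `k` and at distance at least `1 / k` from the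
complement of `U`, at which some subspace `V` of `T_o X` with small equations for the arithmetic structure contains `z`
but does not contain the diagonal subspace -/
def Exceptional {X κ I : Type} [Fintype X] [Fintype I] (U : Set (X → ℂ)) {r : κ → ℕ} (Y : (X → ℂ) → MT (szo r))
    (N : MT (szo r)) (c : I → PlcO r) (a lam : I → ℂ) (k : ℕ) (K : Type) [Field K] [NumberField K] (io : K →+* ℂ)
    (T : ℝ) : Set (X → K) :=
  {s | (∀ j, Y120.HtLe K T (s j)) ∧ (fun j => io (s j)) ∈ InnerM U k ∧
    ∃ V, Defined lam k K io T V ∧ point Y N c a (fun j => io (s j)) ∈ V ∧ ¬ diagonal c a ≤ V}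

theorem diagonal_rational {I J : Type} [Finite I] (c : I → J) (a lam : I → ℂ) (ha : ∀ i, a i ≠ 0)
    (hl : ∀ i, lam i ≠ 0) (h : ∀ i k, c i = c k → IsAlgebraic ℚ (lam i * a i / (lam k * a k))) :
    Rational lam (diagonal c a) := by
  classical
  apply le_antisymm
  · rintro w ⟨u, hu⟩
    have : Fintype I := Fintype.ofFinite I
    have hfin : (Set.range c).Finite := Set.finite_range c
    -- the generators
    let v : J → I → ℂ := fun p i => if c i = p then a i else 0
    have hw : w = ∑ p ∈ hfin.toFinset, u p • v p := by
      funext i
      rw [Finset.sum_apply, Finset.sum_eq_single (c i)]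
      · rw [Pi.smul_apply, smul_eq_mul]
        simp only [v, if_true]
        rw [hu, mul_comm]
      · intro p _ hp
        rw [Pi.smul_apply]
        simp only [v, if_neg (fun h : c i = p => hp h.symm), smul_zero]
      · intro hp
        exact absurd (hfin.mem_toFinset.2 ⟨i, rfl⟩) hp
    rw [hw]
    refine Submodule.sum_mem _ fun p hp => ?_
    obtain ⟨i₀, hi₀⟩ := hfin.mem_toFinset.1 hp
    have hne : lam i₀ * a i₀ ≠ 0 := mul_ne_zero (hl _) (ha _)
    have h1 : u p • v p = (u p * (lam i₀ * a i₀)) • ((lam i₀ * a i₀)⁻¹ • v p) := by
      rw [smul_smul, mul_assoc, mul_inv_cancel₀ hne, mul_one]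
    rw [h1]
    refine Submodule.smul_mem _ _ (Submodule.subset_span ⟨⟨fun p' => if p' = p then (lam i₀ * a i₀)⁻¹ else 0,
      fun i => ?_⟩, fun i => ?_⟩)
    · rw [Pi.smul_apply, smul_eq_mul]
      simp only [v]
      split_ifs <;> ring
    · rw [Pi.smul_apply, smul_eq_mul]
      simp only [v]
      split_ifs with hi
      · have h2 : lam i * ((lam i₀ * a i₀)⁻¹ * a i) = lam i * a i / (lam i₀ * a i₀) := by
          rw [div_eq_mul_inv]
          ring
        rw [h2]
        exact h i i₀ (hi.trans hi₀.symm)
      · rw [mul_zero, mul_zero]
        exact isAlgebraic_zero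
  · rw [Submodule.span_le]
    exact fun w hw => hw.1

/-- Let `(Y, N)` be a family on the connected open set `U ⊆ ℂ ^ X` as above, and let `a i` and `lam i`, `i ∈ I`, be nonzero
complex numbers such that the quotients `a i / a k` and `lam i * a i / (lam k * a k)` are algebraic if `c i = c k`.
(1) The diagonal subspace is rational for the geometric and for the arithmetic structure of `T_o X`, and contains the
points `z` of the family.
(2) There is `ω → ∞` such that for all large `T`, all number fields `K` of degree at most `ω T` and all
embeddings: the exceptional points, at which some subspace with small equations for the arithmetic structure contains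
`z` but not the diagonal subspace, lie on at most `T ^ (1 / ω T)` hypersurfaces of degree at most `T ^ (1 / ω T)`, and
there are at most `T ^ (1 / ω T) * N ^ (|X| - 1)` of them, `N` being the number of elements of `K` of height at most
`T`. -/
theorem result {X κ I : Type} [Fintype X] [DecidableEq X] [Nonempty X] [Fintype κ] [DecidableEq κ] [Fintype I]
    (U : Set (X → ℂ)) (r : κ → ℕ) (μ : κ → ℂ) (J : MT (szo r)) (Y : (X → ℂ) → MT (szo r)) (N : MT (szo r))
    (h : Family U r μ J Y N) (c : I → PlcO r) (a lam : I → ℂ) (ha : ∀ i, a i ≠ 0) (hl : ∀ i, lam i ≠ 0)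
    (halg : ∀ i k, c i = c k → IsAlgebraic ℚ (a i / a k) ∧ IsAlgebraic ℚ (lam i * a i / (lam k * a k))) :
    (Rational (fun _ => 1) (diagonal c a) ∧ Rational lam (diagonal c a) ∧ ∀ x, point Y N c a x ∈ diagonal c a) ∧
    ∃ (ω : ℝ → ℕ) (T₀ : ℝ), Tendsto ω atTop atTop ∧ Monotone ω ∧ ∀ T, T₀ ≤ T → 0 < ω T ∧
      ∀ (K : Type) [Field K] [NumberField K], Module.finrank ℚ K ≤ ω T → ∀ (io : K →+* ℂ),
        Few (ω T) K io T (Exceptional U Y N c a lam (ω T) K io T) := by
  classical
  refine ⟨⟨diagonal_rational c a _ ha (fun _ => one_ne_zero) fun i k hik => by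
      simpa using (halg i k hik).1, diagonal_rational c a lam ha hl fun i k hik => (halg i k hik).2,
      fun x => ⟨fun t => crdO (Y x t.1) (N t.1) t.2, fun i => rfl⟩⟩, ?_⟩
  obtain ⟨hind, han⟩ := ortho_indep (fun j => (h.form j).1) h.isPreconnected h.isOpen h.nonempty h.analytic h.pos
    (fun x hx j => (h.form j).2 x hx) h.dense h.frame h.chart
  have hG := almostAll_of_indep h.isPreconnected h.isOpen h.nonempty han hind
  refine almostAll_lin hG (fun i : I => MvPolynomial.C (lam i * a i) * MvPolynomial.X (c i))
    (fun k K _ _ io T => Exceptional U Y N c a lam k K io T) ?_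
  rintro k K _ _ io T hk s ⟨hs1, hs2, V, ⟨E, hE1, hE2⟩, hs4, hs5⟩
  refine ⟨hs1, hs2, ?_⟩
  obtain ⟨w, ⟨u, hu⟩, hwV⟩ := Set.not_subset.1 hs5
  have h1 : ∃ e ∈ E, ∑ i, io (e i : K) * (lam i * w i) ≠ 0 := by
    by_contra hcon
    push Not at hcon
    exact hwV ((hE2 w).2 hcon)
  obtain ⟨e, he, hew⟩ := h1
  refine ⟨e, hE1 e he, ?_, fun h0 => hew ?_⟩
  · have h2 := (hE2 _).1 hs4 e he
    rw [← h2]
    refine Finset.sum_congr rfl fun i _ => ?_
    rw [map_mul, MvPolynomial.eval_C, MvPolynomial.eval_X, point, mul_assoc]
  · have h2 := congrArg (MvPolynomial.eval u) h0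
    rw [map_sum, map_zero] at h2
    rw [← h2]
    refine Finset.sum_congr rfl fun i _ => ?_
    rw [map_mul, map_mul, MvPolynomial.eval_C, MvPolynomial.eval_C, MvPolynomial.eval_X, hu, mul_assoc (lam i)]

end Pool.Agent.Results.MP_1e27bd_ag.OrthogonalShimuraVarieties
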