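import Pool.Agent.Q311.LN.Sieg

/-!
# Products of modular curves and arbitrary special points: the hyperbolic analytic subspace conjecture at almost all
points of families

Let `S` be a product of modular curves, indexed by the finite set `I`, and `o = (o i)` a special point of `ℍ^I`. The
coordinates of the Harish-Chandra realisation at `o` are `(t i - o i) / (t i - conj (o i))`, up to constants, and a
vector `w` of `T_o X` is rational for the arithmetic structure if the numbers `lam i * w i` are algebraic, where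
`lam i = θ_i² / π` with the period `θ_i` of the elliptic curve with complex multiplication at `o i`. We consider points of
`S` with coordinates `t i = τ_(c i)` for a family of elliptic curves, indexed by the finite set `κ`, with the quotients of
periods `τ_j`, `j ∈ κ`; the coordinates may be repeated, with different special points `o i`. By a change of coordinates
with elements of `GL₂(ℚ)` this includes the points with `t i = γ i • τ_(c i)`, that is arbitrary families of points on
products of modular correspondences.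

Coordinates of the same class (`c i = c k` and `o i = o k`) of the points `z` of the family are proportional. The
subspace `V'` of the vectors with this property (the tangent space of the smallest special subvariety which contains `o`
and the image of the family) is a `bi-ℚ̄`-subspace (1). The conjecture predicts that subspaces `V` which are rational for
the arithmetic structure and contain `z` contain `V'`, for general points `z` of the family. We prove this (2) up to
bounds `ω T → ∞` for the size of the equations of `V` and the degree of the number fields, for all points of height at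
most `T` outside few hypersurfaces of small degree.
-/

set_option autoImplicit false

open Filter NumberField Matrix Pool.Agent.Q311.MV Pool.Agent.Q311.LN
open Pool.Agent.Y119.PLM (MT Ix IsMon DenseMon pe)
open Pool.Agent.Y890.MV (InnerM evM)

namespace Pool.Agent.Results.MP_1e27bd_ag.ProductsOfModularCurves

/-- the number `τ` of the curve number `j` with the matrix of periods and quasi-periods `Y x j` -/
noncomputable def tau {X κ : Type} (Y : (X → ℂ) → MT fun _ : κ => 2) (x : X → ℂ) (j : κ) : ℂ :=
  Y x j 0 1 / Y x j 0 0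

/-- **Families of elliptic curves with dense monodromy**, given by their matrices `Y x j` of periods and
quasi-periods -/
structure Family {X κ : Type} [Fintype X] (U : Set (X → ℂ)) (μ : κ → ℂ) (Y : (X → ℂ) → MT fun _ : κ => 2) : Prop where
  isOpen : IsOpen U
  isPreconnected : IsPreconnected U
  nonempty : U.Nonempty
  analytic : ∀ j a b, AnalyticOnNhd ℂ (fun x => Y x j a b) U
  /-- the relation of Legendre -/
  legendre : ∀ j, μ j ≠ 0 ∧ ∀ x ∈ U, (Y x j).det = μ j
  ne_zero : ∀ x ∈ U, ∀ j, Y x j 0 0 ≠ 0
  im_pos : ∀ x ∈ U, ∀ j, 0 < (tau Y x j).im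
  /-- polynomials which vanish on the monodromy vanish on the product of the groups `SL₂` -/
  dense : ∀ p : MvPolynomial (Ix fun _ : κ => 2) ℂ, (∀ g, IsMon U Y g → pe p g = 0) →
    ∀ g : MT fun _ : κ => 2, (∀ j, (g j).det = 1) → pe p g = 0

/-- The point `z` of `T_o X` which corresponds to the point `x` of the family. -/
noncomputable def point {X κ I : Type} (Y : (X → ℂ) → MT fun _ : κ => 2) (c : I → κ) (o a : I → ℂ) (x : X → ℂ) :
    I → ℂ :=
  fun i => a i * ((tau Y x (c i) - o i) / (tau Y x (c i) - starRingEnd ℂ (o i)))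

/-- the subspace of the vectors `w` for which `w i / a i` depends only on the class `(c i, o i)` -/
def classes {I κ : Type} (c : I → κ) (o a : I → ℂ) : Submodule ℂ (I → ℂ) where
  carrier := {w | ∃ u : κ × ℂ → ℂ, ∀ i, w i = a i * u (c i, o i)}
  zero_mem' := ⟨0, fun i => by simp⟩
  add_mem' := by
    rintro v w ⟨u, hu⟩ ⟨t, ht⟩
    exact ⟨u + t, fun i => by rw [Pi.add_apply, hu, ht, Pi.add_apply, mul_add]⟩
  smul_mem' := by
    rintro r w ⟨u, hu⟩
    exact ⟨r • u, fun i => by rw [Pi.smul_apply, hu, Pi.smul_apply, smul_eq_mul, smul_eq_mul, mul_left_comm]⟩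

/-- `V` is rational for the `ℚ̄`-structure of the vectors `w` with algebraic `lam i * w i` -/
def Rational {I : Type} (lam : I → ℂ) (V : Submodule ℂ (I → ℂ)) : Prop :=
  V = Submodule.span ℂ {w | w ∈ V ∧ ∀ i, IsAlgebraic ℚ (lam i * w i)}

/-- `V` is defined by equations `∑ i, e i * lam i * w i = 0` whose coefficients `e i` are integers of `K` with all
conjugates at most `T ^ k` -/
def Defined {I : Type} [Fintype I] (lam : I → ℂ) (k : ℕ) (K : Type) [Field K] [NumberField K] (io : K →+* ℂ) (T : ℝ)
    (V : Submodule ℂ (I → ℂ)) : Prop :=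
  ∃ E : Set (I → 𝓞 K), (∀ e ∈ E, ∀ i (φ : K →+* ℂ), ‖φ (e i : K)‖ ≤ T ^ k) ∧
    ∀ w, w ∈ V ↔ ∀ e ∈ E, ∑ i, io (e i : K) * (lam i * w i) = 0

/-- the points with coordinates in `K` of height at most `T`, of norm at most `k` and at distance at least `1 / k` from the
complement of `U`, at which some subspace `V` of `T_o X` with small equations for the arithmetic structure contains `z`
but does not contain the subspace `classes c o a` -/
def Exceptional {X κ I : Type} [Fintype X] [Fintype I] (U : Set (X → ℂ)) (Y : (X → ℂ) → MT fun _ : κ => 2)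
    (c : I → κ) (o a lam : I → ℂ) (k : ℕ) (K : Type) [Field K] [NumberField K] (io : K →+* ℂ) (T : ℝ) : Set (X → K) :=
  {s | (∀ j, Y120.HtLe K T (s j)) ∧ (fun j => io (s j)) ∈ InnerM U k ∧
    ∃ V, Defined lam k K io T V ∧ point Y c o a (fun j => io (s j)) ∈ V ∧ ¬ classes c o a ≤ V}

/-- the standard alternating form -/
def J2 : Matrix (Fin 2) (Fin 2) ℂ := !![0, 1; -1, 0]

theorem det2 (A : Matrix (Fin 2) (Fin 2) ℂ) : Aᵀ * J2 * A = A.det • J2 := by
  ext a b
  fin_cases a <;> fin_cases b <;>
    simp [J2, Matrix.mul_apply, Fin.sum_univ_two, Matrix.det_fin_two] <;> ring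

theorem det2' {A : Matrix (Fin 2) (Fin 2) ℂ} {r s : ℂ} (hr : r ≠ 0) (h : Aᵀ * (r⁻¹ • J2) * A = s • J2) :
    A.det = r * s := by
  rw [Matrix.mul_smul, Matrix.smul_mul, det2, smul_smul] at h
  have h1 := congrFun (congrFun h 0) 1
  simp only [Matrix.smul_apply, J2, Matrix.of_apply, Matrix.cons_val', Matrix.cons_val_one, Matrix.cons_val_zero,
    smul_eq_mul, mul_one, Matrix.cons_val_fin_one] at h1
  rw [← h1, ← mul_assoc, mul_inv_cancel₀ hr, one_mul]

/-- the functions `τ_j` are independent over the rational functions -/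
theorem tau_indep {X κ : Type} [Fintype X] [Fintype κ] [DecidableEq κ] {U : Set (X → ℂ)} {μ : κ → ℂ}
    {Y : (X → ℂ) → MT fun _ : κ => 2} (h : Family U μ Y) :
    IndepM U (fun j x => tau Y x j) ∧ ∀ j, AnalyticOnNhd ℂ (fun x => tau Y x j) U := by
  classical
  let n : κ → ℕ := fun _ => 2
  let f : Ix n → (X → ℂ) → ℂ := fun i x => Y x i.1 i.2.1 i.2.2
  let J : MT n := fun _ => J2
  let J' : MT n := fun j => (μ j)⁻¹ • J2
  have hJ : ∀ j, (J j).det ≠ 0 := by
    intro j
    have h1 : (J2 : Matrix (Fin 2) (Fin 2) ℂ).det = 1 := by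
      rw [J2, Matrix.det_fin_two_of]
      ring
    change (J2 : Matrix (Fin 2) (Fin 2) ℂ).det ≠ 0
    rw [h1]
    exact one_ne_zero
  have hsym : ∀ x ∈ U, ∀ j, (Y x j)ᵀ * J' j * Y x j = J j := by
    intro x hx j
    have h1 : (Y x j)ᵀ * J' j * Y x j = (μ j)⁻¹ • ((Y x j)ᵀ * J2 * Y x j) := by
      simp only [J', Matrix.mul_smul, Matrix.smul_mul]
    rw [h1, det2, (h.legendre j).2 x hx, smul_smul, inv_mul_cancel₀ (h.legendre j).1, one_smul]
  have hD : DenseMon U Y J := by
    intro p hp g hg
    refine h.dense p hp g fun j => ?_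
    have h1 : (g j)ᵀ * ((1 : ℂ)⁻¹ • J2) * g j = (1 : ℂ) • J2 := by
      rw [inv_one, one_smul]
      exact hg j
    rw [det2' one_ne_zero h1, one_mul]
  let den : MvPolynomial (Ix n) ℂ := ∏ j, MvPolynomial.X ⟨j, 0, 0⟩
  let num : κ → MvPolynomial (Ix n) ℂ := fun j =>
    MvPolynomial.X ⟨j, 0, 1⟩ * ∏ j' ∈ Finset.univ.erase j, MvPolynomial.X ⟨j', 0, 0⟩
  have hdenv : ∀ y : Ix n → ℂ, MvPolynomial.eval y den = ∏ j, y ⟨j, 0, 0⟩ := by
    intro y
    rw [map_prod]
    exact Finset.prod_congr rfl fun j _ => MvPolynomial.eval_X _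
  have hnumv : ∀ (j : κ) (y : Ix n → ℂ), MvPolynomial.eval y (num j) =
      y ⟨j, 0, 1⟩ * ∏ j' ∈ Finset.univ.erase j, y ⟨j', 0, 0⟩ := by
    intro j y
    rw [map_mul, MvPolynomial.eval_X, map_prod]
    congr 1
    exact Finset.prod_congr rfl fun j _ => MvPolynomial.eval_X _
  have hdiv : ∀ (j : κ) (y : Ix n → ℂ), (∀ j, y ⟨j, 0, 0⟩ ≠ 0) →
      MvPolynomial.eval y (num j) / MvPolynomial.eval y den = y ⟨j, 0, 1⟩ / y ⟨j, 0, 0⟩ := by
    intro j y hy
    rw [hdenv, hnumv, ← Finset.mul_prod_erase Finset.univ (fun j => y ⟨j, 0, 0⟩) (Finset.mem_univ j)]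
    exact mul_div_mul_right _ _ (Finset.prod_ne_zero_iff.2 fun j' _ => hy j')
  have hden : ∀ x ∈ U, MvPolynomial.eval (fun i => f i x) den ≠ 0 := by
    intro x hx
    rw [hdenv]
    exact Finset.prod_ne_zero_iff.2 fun j _ => h.ne_zero x hx j
  constructor
  · have h1 := indep_ratio (f := f) h.isOpen h.nonempty
      (S := {y | ∀ j, (mat y j)ᵀ * J' j * mat y j = J j})
      (fun Q hQ x hx y hy => tor_inv (J := J) (J' := J') h.isPreconnected h.analytic hJ hsym hD Q hQ hx hy) num den
      hden (q := 1) one_ne_zero ?_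
    · intro P hP
      refine h1 P fun x hx => ?_
      rw [← hP x hx]
      unfold evM
      congr 1
      funext j
      exact hdiv j (fun i => f i x) fun j' => h.ne_zero x hx j'
    · intro w _
      let A : MT n := fun j => !![1, w j; 0, μ j]
      refine ⟨fun i => A i.1 i.2.1 i.2.2, fun j => ?_, ?_, fun j => ?_⟩
      · change (A j)ᵀ * J' j * A j = J j
        have h2 : (A j)ᵀ * J' j * A j = (μ j)⁻¹ • ((A j)ᵀ * J2 * A j) := by
          simp only [J', Matrix.mul_smul, Matrix.smul_mul]
        have h3 : (A j).det = μ j := (Matrix.det_fin_two_of 1 (w j) 0 (μ j)).trans (by ring)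
        rw [h2, det2, h3, smul_smul, inv_mul_cancel₀ (h.legendre j).1, one_smul]
      · rw [hdenv]
        exact Finset.prod_ne_zero_iff.2 fun j _ => by simp [A]
      · have h2 := hdiv j (fun i => A i.1 i.2.1 i.2.2) fun j' => by simp [A]
        have h3 : MvPolynomial.eval (fun i : Ix n => A i.1 i.2.1 i.2.2) den ≠ 0 := by
          rw [hdenv]
          exact Finset.prod_ne_zero_iff.2 fun j _ => by simp [A]
        rw [div_eq_iff h3] at h2
        rw [h2]
        congr 1
        simp [A]
  · intro j x hx
    exact (h.analytic j 0 1 x hx).fun_div (h.analytic j 0 0 x hx) (h.ne_zero x hx j)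

theorem classes_rational {I κ : Type} [Finite I] (c : I → κ) (o a lam : I → ℂ) (ha : ∀ i, a i ≠ 0)
    (hl : ∀ i, lam i ≠ 0)
    (h : ∀ i k, c i = c k → o i = o k → IsAlgebraic ℚ (lam i * a i / (lam k * a k))) :
    Rational lam (classes c o a) := by
  classical
  apply le_antisymm
  · rintro w ⟨u, hu⟩
    have : Fintype I := Fintype.ofFinite I
    let q : I → κ × ℂ := fun i => (c i, o i)
    have hfin : (Set.range q).Finite := Set.finite_range q
    let v : κ × ℂ → I → ℂ := fun p i => if q i = p then a i else 0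
    have hw : w = ∑ p ∈ hfin.toFinset, u p • v p := by
      funext i
      rw [Finset.sum_apply, Finset.sum_eq_single (q i)]
      · rw [Pi.smul_apply, smul_eq_mul]
        simp only [v, if_true]
        rw [hu, mul_comm]
      · intro p _ hp
        rw [Pi.smul_apply]
        simp only [v, if_neg (fun h : q i = p => hp h.symm), smul_zero]
      · intro hp
        exact absurd (hfin.mem_toFinset.2 ⟨i, rfl⟩) hp
    rw [hw]
    refine Submodule.sum_mem _ fun p hp => ?_
    obtain ⟨i₀, hi₀⟩ := hfin.mem_toFinset.1 hp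
    have hne : lam i₀ * a i₀ ≠ 0 := mul_ne_zero (hl _) (ha _)
    have h1 : u p • v p = (u p * (lam i₀ * a i₀)) • ((lam i₀ * a i₀)⁻¹ • v p) := by
      rw [smul_smul, mul_assoc, mul_inv_cancel₀ hne, mul_one]
    rw [h1]
    refine Submodule.smul_mem _ _ (Submodule.subset_span ⟨⟨fun p' => if p' = p then (lam i₀ * a i₀)⁻¹ else 0,
      fun i => ?_⟩, fun i => ?_⟩)
    · rw [Pi.smul_apply, smul_eq_mul]
      simp only [v, q]
      split_ifs <;> ring
    · rw [Pi.smul_apply, smul_eq_mul]
      simp only [v]
      split_ifs with hi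
      · have h2 : lam i * ((lam i₀ * a i₀)⁻¹ * a i) = lam i * a i / (lam i₀ * a i₀) := by
          rw [div_eq_mul_inv]
          ring
        rw [h2]
        have h3 : q i = q i₀ := hi.trans hi₀.symm
        exact h i i₀ (congrArg Prod.fst h3) (congrArg Prod.snd h3)
      · rw [mul_zero, mul_zero]
        exact isAlgebraic_zero
  · rw [Submodule.span_le]
    exact fun w hw => hw.1

/-- Let `Y` be a family on the connected open set `U ⊆ ℂ ^ X` as above, `c : I → κ`, `o i` points of the upper half
plane, and `a i`, `lam i`, `i ∈ I`, nonzero complex numbers such that the quotients `a i / a k` and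
`lam i * a i / (lam k * a k)` are algebraic for `i, k` of the same class (`c i = c k` and `o i = o k`).
(1) The subspace `classes c o a` is rational for the geometric and for the arithmetic structure of `T_o X`, and contains
the points `z` of the family.
(2) There is `ω → ∞` such that for all large `T`, all number fields `K` of degree at most `ω T` and all
embeddings: the exceptional points, at which some subspace with small equations for the arithmetic structure contains
`z` but not `classes c o a`, lie on at most `T ^ (1 / ω T)` hypersurfaces of degree at most `T ^ (1 / ω T)`, and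
there are at most `T ^ (1 / ω T) * N ^ (|X| - 1)` of them, `N` being the number of elements of `K` of height at most
`T`. -/
theorem result {X κ I : Type} [Fintype X] [DecidableEq X] [Nonempty X] [Fintype κ] [DecidableEq κ] [Fintype I]
    (U : Set (X → ℂ)) (μ : κ → ℂ) (Y : (X → ℂ) → MT fun _ : κ => 2) (h : Family U μ Y) (c : I → κ)
    (o a lam : I → ℂ) (ho : ∀ i, 0 < (o i).im) (ha : ∀ i, a i ≠ 0) (hl : ∀ i, lam i ≠ 0)
    (halg : ∀ i k, c i = c k → o i = o k →
      IsAlgebraic ℚ (a i / a k) ∧ IsAlgebraic ℚ (lam i * a i / (lam k * a k))) :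
    (Rational (fun _ => 1) (classes c o a) ∧ Rational lam (classes c o a) ∧
      ∀ x, point Y c o a x ∈ classes c o a) ∧
    ∃ (ω : ℝ → ℕ) (T₀ : ℝ), Tendsto ω atTop atTop ∧ Monotone ω ∧ ∀ T, T₀ ≤ T → 0 < ω T ∧
      ∀ (K : Type) [Field K] [NumberField K], Module.finrank ℚ K ≤ ω T → ∀ (io : K →+* ℂ),
        Few (ω T) K io T (Exceptional U Y c o a lam (ω T) K io T) := by
  classical
  refine ⟨⟨classes_rational c o a _ ha (fun _ => one_ne_zero) fun i k h1 h2 => by
      simpa using (halg i k h1 h2).1, classes_rational c o a lam ha hl fun i k h1 h2 => (halg i k h1 h2).2,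
      fun x => ⟨fun p => (tau Y x p.1 - p.2) / (tau Y x p.1 - starRingEnd ℂ p.2), fun i => rfl⟩⟩, ?_⟩
  obtain ⟨hind, han⟩ := tau_indep h
  have hG := almostAll_of_indep h.isPreconnected h.isOpen h.nonempty han hind
  let q : I → κ × ℂ := fun i => (c i, o i)
  let 𝒬 : Finset (κ × ℂ) := Finset.univ.image q
  let L : κ × ℂ → MvPolynomial κ ℂ := fun p => MvPolynomial.X p.1 - MvPolynomial.C (starRingEnd ℂ p.2)
  have hL : ∀ (p : κ × ℂ) (y : κ → ℂ), MvPolynomial.eval y (L p) = y p.1 - starRingEnd ℂ p.2 := by
    intro p y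
    simp [L]
  let F : I → MvPolynomial κ ℂ := fun i =>
    MvPolynomial.C (lam i * a i) * (MvPolynomial.X (c i) - MvPolynomial.C (o i)) * ∏ p ∈ 𝒬.erase (q i), L p
  have hF : ∀ (i : I) (y : κ → ℂ), MvPolynomial.eval y (F i) =
      lam i * a i * (y (c i) - o i) * ∏ p ∈ 𝒬.erase (q i), (y p.1 - starRingEnd ℂ p.2) := by
    intro i y
    simp only [F, map_mul, map_sub, MvPolynomial.eval_C, MvPolynomial.eval_X, map_prod, hL]
  have hq : ∀ i, q i ∈ 𝒬 := fun i => Finset.mem_image_of_mem _ (Finset.mem_univ i)
  refine almostAll_lin hG F (fun k K _ _ io T => Exceptional U Y c o a lam k K io T) ?_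
  rintro k K _ _ io T hk s ⟨hs1, hs2, V, ⟨E, hE1, hE2⟩, hs4, hs5⟩
  refine ⟨hs1, hs2, ?_⟩
  have hsU : (fun j => io (s j)) ∈ U := hs2.2 (Metric.mem_ball_self (by positivity))
  obtain ⟨w, ⟨u, hu⟩, hwV⟩ := Set.not_subset.1 hs5
  have h1 : ∃ e ∈ E, ∑ i, io (e i : K) * (lam i * w i) ≠ 0 := by
    by_contra hcon
    push Not at hcon
    exact hwV ((hE2 w).2 hcon)
  obtain ⟨e, he, hew⟩ := h1
  refine ⟨e, hE1 e he, ?_, fun h0 => hew ?_⟩
  · have h2 := (hE2 _).1 hs4 e he
    have hne : ∀ p ∈ 𝒬, tau Y (fun j => io (s j)) p.1 - starRingEnd ℂ p.2 ≠ 0 := by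
      intro p hp h3
      obtain ⟨i, -, rfl⟩ := Finset.mem_image.1 hp
      have h4 := h.im_pos _ hsU (c i)
      rw [sub_eq_zero.1 h3, Complex.conj_im] at h4
      exact absurd (ho i) (by linarith)
    have h3 : ∀ i, io (e i : K) * MvPolynomial.eval (fun j => tau Y (fun j => io (s j)) j) (F i) =
        (∏ p ∈ 𝒬, (tau Y (fun j => io (s j)) p.1 - starRingEnd ℂ p.2)) *
          (io (e i : K) * (lam i * point Y c o a (fun j => io (s j)) i)) := by
      intro i
      have h4 := hne (q i) (hq i)
      rw [hF, ← Finset.mul_prod_erase 𝒬 _ (hq i), point]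
      change _ = (tau Y (fun j => io (s j)) (c i) - starRingEnd ℂ (o i)) * _ * _
      have h5 : tau Y (fun j => io (s j)) (c i) - starRingEnd ℂ (o i) ≠ 0 := h4
      field_simp
    rw [Finset.sum_congr rfl fun i _ => h3 i, ← Finset.mul_sum, h2, mul_zero]
  · -- the classes
    have h2 : ∀ p ∈ 𝒬, ∑ i ∈ Finset.univ.filter (fun i => q i = p), io (e i : K) * (lam i * a i) = 0 := by
      intro p hp
      obtain ⟨i₀, -, hi₀⟩ := Finset.mem_image.1 hp
      obtain ⟨t, ht⟩ := Set.Infinite.nonempty (s := {t : ℂ | t ∉ 𝒬.image fun p => starRingEnd ℂ p.2})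
        ((Finset.finite_toSet _).infinite_compl)
      let y : κ → ℂ := fun j => if j = p.1 then starRingEnd ℂ p.2 else t
      have h3 := congrArg (MvPolynomial.eval y) h0
      rw [map_sum, map_zero] at h3
      have h4 : ∀ i, MvPolynomial.eval y (MvPolynomial.C (io (e i : K)) * F i) =
          if q i = p then io (e i : K) * (lam i * a i) * ((starRingEnd ℂ p.2 - p.2) *
            ∏ p' ∈ 𝒬.erase p, (y p'.1 - starRingEnd ℂ p'.2)) else 0 := by
        intro i
        rw [map_mul, MvPolynomial.eval_C, hF]
        split_ifs with hi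
        · rw [hi]
          have h5 : y (c i) = starRingEnd ℂ p.2 := by
            have : c i = p.1 := congrArg Prod.fst hi
            simp only [y, this, if_true]
          have h6 : o i = p.2 := congrArg Prod.snd hi
          rw [h5, h6]
          ring
        · rw [Finset.prod_eq_zero (Finset.mem_erase.2 ⟨fun h7 => hi h7.symm, hp⟩) (by simp [y])]
          ring
      rw [Finset.sum_congr rfl fun i _ => h4 i, ← Finset.sum_filter, ← Finset.sum_mul] at h3
      refine (mul_eq_zero.1 h3).resolve_right (mul_ne_zero ?_ ?_)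
      · intro h5
        have h6 := congrArg Complex.im h5
        rw [Complex.sub_im, Complex.conj_im, Complex.zero_im] at h6
        have h7 := ho i₀
        have h8 : o i₀ = p.2 := congrArg Prod.snd hi₀
        rw [h8] at h7
        linarith
      · refine Finset.prod_ne_zero_iff.2 fun p' hp' h5 => ?_
        obtain ⟨h6, h7⟩ := Finset.mem_erase.1 hp'
        simp only [y] at h5
        split_ifs at h5 with h8
        · apply h6
          refine Prod.ext h8 ?_
          exact (star_injective (sub_eq_zero.1 h5)).symm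
        · exact ht (Finset.mem_image.2 ⟨p', h7, (sub_eq_zero.1 h5).symm⟩)
    have h3 : ∑ i, io (e i : K) * (lam i * w i) =
        ∑ p ∈ 𝒬, u p * ∑ i ∈ Finset.univ.filter (fun i => q i = p), io (e i : K) * (lam i * a i) := by
      rw [← Finset.sum_fiberwise_of_maps_to (fun i _ => hq i)]
      refine Finset.sum_congr rfl fun p _ => ?_
      rw [Finset.mul_sum]
      refine Finset.sum_congr rfl fun i hi => ?_
      have h4 : (c i, o i) = p := (Finset.mem_filter.1 hi).2
      rw [hu, h4]
      ring
    rw [h3]
    exact Finset.sum_eq_zero fun p hp => by rw [h2 p hp, mul_zero]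

end Pool.Agent.Results.MP_1e27bd_ag.ProductsOfModularCurves
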