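import Pool.Agent.Q311.LN.SiegInd

/-!
# Products of Siegel modular varieties: the hyperbolic analytic subspace conjecture at almost all points

Let `S` be a product of Siegel modular varieties (an index set `κ` of Siegel spaces of genus `g j`, each of which may be
repeated) and let `A → W` be the families of principally polarised abelian varieties over a variety `W` with a dominant map
to a special subvariety of `S` of diagonal type, or any families over `W` with Zariski dense monodromy in the product of
the symplectic groups. In a chart `U` of `W` the families are given by their period matrices `Y x j` (the first `g j` rows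
are the periods of the holomorphic forms); a special point `o` gives symplectic frames `N j`, adapted to the Hodge
decomposition of the abelian varieties at `o`, and the coordinates of the Harish-Chandra realisation at `o` are the
entries `(a, b)`, `a ≤ b`, of the symmetric matrices `(left (Y x j * N j))⁻¹ * right (Y x j * N j)`. The coordinates of
`T_o X` are indexed by a set `I`; the coordinate number `i` is `a i` times the coordinate with place `q i`. They are
chosen such that `w ∈ T_o X` is rational for the geometric structure if all `w i` are algebraic; it is rational for the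
arithmetic structure if all `lam i * w i` are algebraic (`lam i = θ_j θ_j' / π` for products of periods of the abelian
varieties at `o`).

The subspace `V'` of the vectors with `w i / a i = w k / a k` if `q i = q k` contains the points `z` of the family. It is
the tangent space of the special subvariety, of diagonal type, which contains the image of the family, and it is a
`bi-ℚ̄`-subspace (1). The conjecture predicts for a general algebraic point `z` of the family that every subspace
`V ⊆ T_o X` which is rational for the arithmetic structure and contains `z` contains `V'`. We prove this (2) up to bounds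
`ω T → ∞` for the size of the equations of `V` and the degree of the number fields, for all points of height at most `T`
outside few hypersurfaces of small degree. If `q` is injective (there are no two equal factors) then `V' = T_o X`.
-/

set_option autoImplicit false

open Filter NumberField Matrix Pool.Agent.Q311.MV Pool.Agent.Q311.LN
open Pool.Agent.Y119.PLM (MT Ix IsMon DenseMon)
open Pool.Agent.Y890.MV (InnerM)

namespace Pool.Agent.Results.MP_1e27bd_ag.SiegelModularVarieties

/-- **Families of polarised abelian varieties with dense monodromy**, given by their period matrices `Y x j` of size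
`2 g j`, with frames `N j` at a point of the product of the Siegel spaces. `Jst` is the standard symplectic matrix, and
`left Z` and `right Z` are the left and the right half of the first half of the rows of `Z`. -/
structure Family {X κ : Type} [Fintype X] (U : Set (X → ℂ)) (g : κ → ℕ) (μ : κ → ℂ) (Y : (X → ℂ) → MT (dbl g))
    (N : MT (dbl g)) : Prop where
  isOpen : IsOpen U
  isPreconnected : IsPreconnected U
  nonempty : U.Nonempty
  analytic : ∀ j a b, AnalyticOnNhd ℂ (fun x => Y x j a b) U
  /-- the relations of Legendre, Riemann and Weierstrass -/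
  legendre : ∀ j, μ j ≠ 0 ∧ ∀ x ∈ U, (Y x j)ᵀ * (μ j • Jst (g j)) * Y x j = Jst (g j)
  /-- polynomials which vanish on the monodromy vanish on the product of the symplectic groups -/
  dense : DenseMon U Y fun j => Jst (g j)
  /-- the frames are symplectic -/
  frame : ∀ j, (N j)ᵀ * Jst (g j) * N j = Jst (g j)
  /-- the points of the family are in the chart at `o` -/
  chart : ∀ x ∈ U, ∀ j, (left (g := g j) (Y x j * N j)).det ≠ 0

/-- The point `z` of `T_o X` which corresponds to the point `x` of the family: the coordinate number `i` is `a i` times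
the entry with place `q i` of the matrix `(left (Y x j * N j))⁻¹ * right (Y x j * N j)`. -/
noncomputable def point {X κ I : Type} {g : κ → ℕ} (Y : (X → ℂ) → MT (dbl g)) (N : MT (dbl g)) (q : I → Places g)
    (a : I → ℂ) (x : X → ℂ) : I → ℂ :=
  fun i => a i * coord (g := g (q i).1.1) (Y x (q i).1.1) (N (q i).1.1) (q i).1.2.1 (q i).1.2.2

/-- the subspace of the vectors `w` such that `w i = a i * u (q i)` for some `u` -/
def diagonal {I J : Type} (q : I → J) (a : I → ℂ) : Submodule ℂ (I → ℂ) where
  carrier := {w | ∃ u : J → ℂ, ∀ i, w i = a i * u (q i)}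
  zero_mem' := ⟨0, fun i => by simp⟩
  add_mem' := by
    rintro v w ⟨u, hu⟩ ⟨t, ht⟩
    exact ⟨u + t, fun i => by rw [Pi.add_apply, hu, ht, Pi.add_apply, mul_add]⟩
  smul_mem' := by
    rintro c w ⟨u, hu⟩
    exact ⟨c • u, fun i => by rw [Pi.smul_apply, hu, Pi.smul_apply, smul_eq_mul, smul_eq_mul, mul_left_comm]⟩

/-- `V` is rational for the `ℚ̄`-structure of the vectors `w` with algebraic `lam i * w i` -/
def Rational {I : Type} (lam : I → ℂ) (V : Submodule ℂ (I → ℂ)) : Prop :=
  V = Submodule.span ℂ {w | w ∈ V ∧ ∀ i, IsAlgebraic ℚ (lam i * w i)}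

/-- `V` is defined by equations `∑ i, c i * lam i * w i = 0` whose coefficients `c i` are integers of `K` with all
conjugates at most `T ^ k` -/
def Defined {I : Type} [Fintype I] (lam : I → ℂ) (k : ℕ) (K : Type) [Field K] [NumberField K] (io : K →+* ℂ) (T : ℝ)
    (V : Submodule ℂ (I → ℂ)) : Prop :=
  ∃ E : Set (I → 𝓞 K), (∀ c ∈ E, ∀ i (φ : K →+* ℂ), ‖φ (c i : K)‖ ≤ T ^ k) ∧
    ∀ w, w ∈ V ↔ ∀ c ∈ E, ∑ i, io (c i : K) * (lam i * w i) = 0

/-- the points with coordinates in `K` of height at most `T`, of norm at most `k` and at distance at least `1 / k` from the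
complement of `U`, at which some subspace `V` of `T_o X` with small equations for the arithmetic structure contains `z`
but does not contain the diagonal subspace -/
def Exceptional {X κ I : Type} [Fintype X] [Fintype I] (U : Set (X → ℂ)) {g : κ → ℕ} (Y : (X → ℂ) → MT (dbl g))
    (N : MT (dbl g)) (q : I → Places g) (a lam : I → ℂ) (k : ℕ) (K : Type) [Field K] [NumberField K] (io : K →+* ℂ)
    (T : ℝ) : Set (X → K) :=
  {s | (∀ j, Y120.HtLe K T (s j)) ∧ (fun j => io (s j)) ∈ InnerM U k ∧
    ∃ V, Defined lam k K io T V ∧ point Y N q a (fun j => io (s j)) ∈ V ∧ ¬ diagonal q a ≤ V}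

theorem diagonal_rational {I J : Type} [Finite I] (q : I → J) (a lam : I → ℂ) (ha : ∀ i, a i ≠ 0)
    (hl : ∀ i, lam i ≠ 0) (h : ∀ i k, q i = q k → IsAlgebraic ℚ (lam i * a i / (lam k * a k))) :
    Rational lam (diagonal q a) := by
  classical
  apply le_antisymm
  · rintro w ⟨u, hu⟩
    have : Fintype I := Fintype.ofFinite I
    have hfin : (Set.range q).Finite := Set.finite_range q
    -- the generators
    let v : J → I → ℂ := fun p i => if q i = p then a i else 0
    have hw : w = ∑ p ∈ hfin.toFinset, u p • v p := by
      funext i
      rw [Finset.sum_apply, Finset.sum_eq_single (q i)]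
      · rw [Pi.smul_apply, smul_eq_mul]
        simp only [v, if_true]
        rw [hu, mul_comm]
      · intro p _ hp
        rw [Pi.smul_apply]
        simp only [v, if_neg (fun h : q i = p => hp h.symm), smul_zero]
      · intro hp
        exact absurd (hfin.mem_toFinset.2 ⟨i, rfl⟩) hp
    rw [hw]
    refine Submodule.sum_mem _ fun p hp => ?_
    obtain ⟨i₀, hi₀⟩ := hfin.mem_toFinset.1 hp
    have hne : lam i₀ * a i₀ ≠ 0 := mul_ne_zero (hl _) (ha _)
    have h1 : u p • v p = (u p * (lam i₀ * a i₀)) • ((lam i₀ * a i₀)⁻¹ • v p) := by
      rw [smul_smul, mul_assoc, mul_inv_cancel₀ hne, mul_one]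
    rw [h1]
    refine Submodule.smul_mem _ _ (Submodule.subset_span ⟨⟨fun p' => if p' = p then (lam i₀ * a i₀)⁻¹ else 0,
      fun i => ?_⟩, fun i => ?_⟩)
    · rw [Pi.smul_apply, smul_eq_mul]
      simp only [v]
      split_ifs <;> ring
    · rw [Pi.smul_apply, smul_eq_mul]
      simp only [v]
      split_ifs with hi
      · have h2 : lam i * ((lam i₀ * a i₀)⁻¹ * a i) = lam i * a i / (lam i₀ * a i₀) := by
          rw [div_eq_mul_inv]
          ring
        rw [h2]
        exact h i i₀ (hi.trans hi₀.symm)
      · rw [mul_zero, mul_zero]
        exact isAlgebraic_zero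
  · rw [Submodule.span_le]
    exact fun w hw => hw.1

/-- Let `(Y, N)` be a family on the connected open set `U ⊆ ℂ ^ X` as above, and let `a i` and `lam i`, `i ∈ I`, be nonzero
complex numbers such that the quotients `a i / a k` and `lam i * a i / (lam k * a k)` are algebraic if `q i = q k`.
(1) The diagonal subspace is rational for the geometric and for the arithmetic structure of `T_o X`, and contains the
points `z` of the family.
(2) There is `ω → ∞` such that for all large `T`, all number fields `K` of degree at most `ω T` and all
embeddings: the exceptional points, at which some subspace with small equations for the arithmetic structure contains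
`z` but not the diagonal subspace, lie on at most `T ^ (1 / ω T)` hypersurfaces of degree at most `T ^ (1 / ω T)`, and
there are at most `T ^ (1 / ω T) * N ^ (|X| - 1)` of them, `N` being the number of elements of `K` of height at most
`T`. -/
theorem result {X κ I : Type} [Fintype X] [DecidableEq X] [Nonempty X] [Fintype κ] [DecidableEq κ] [Fintype I]
    (U : Set (X → ℂ)) (g : κ → ℕ) (μ : κ → ℂ) (Y : (X → ℂ) → MT (dbl g)) (N : MT (dbl g)) (h : Family U g μ Y N)
    (q : I → Places g) (a lam : I → ℂ) (ha : ∀ i, a i ≠ 0) (hl : ∀ i, lam i ≠ 0)
    (halg : ∀ i k, q i = q k → IsAlgebraic ℚ (a i / a k) ∧ IsAlgebraic ℚ (lam i * a i / (lam k * a k))) :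
    (Rational (fun _ => 1) (diagonal q a) ∧ Rational lam (diagonal q a) ∧ ∀ x, point Y N q a x ∈ diagonal q a) ∧
    ∃ (ω : ℝ → ℕ) (T₀ : ℝ), Tendsto ω atTop atTop ∧ Monotone ω ∧ ∀ T, T₀ ≤ T → 0 < ω T ∧
      ∀ (K : Type) [Field K] [NumberField K], Module.finrank ℚ K ≤ ω T → ∀ (io : K →+* ℂ),
        Few (ω T) K io T (Exceptional U Y N q a lam (ω T) K io T) := by
  classical
  refine ⟨⟨diagonal_rational q a _ ha (fun _ => one_ne_zero) fun i k hik => by
      simpa using (halg i k hik).1, diagonal_rational q a lam ha hl fun i k hik => (halg i k hik).2,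
      fun x => ⟨fun p => coord (g := g p.1.1) (Y x p.1.1) (N p.1.1) p.1.2.1 p.1.2.2, fun i => rfl⟩⟩, ?_⟩
  obtain ⟨hind, han⟩ := siegel_indep (fun j => (h.legendre j).1) h.isPreconnected h.isOpen h.nonempty h.analytic
    (fun x hx j => (h.legendre j).2 x hx) h.dense h.frame h.chart
  have hG := almostAll_of_indep h.isPreconnected h.isOpen h.nonempty han hind
  refine almostAll_lin hG (fun i : I => MvPolynomial.C (lam i * a i) * MvPolynomial.X (q i))
    (fun k K _ _ io T => Exceptional U Y N q a lam k K io T) ?_
  rintro k K _ _ io T hk s ⟨hs1, hs2, V, ⟨E, hE1, hE2⟩, hs4, hs5⟩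
  refine ⟨hs1, hs2, ?_⟩
  obtain ⟨w, ⟨u, hu⟩, hwV⟩ := Set.not_subset.1 hs5
  have h1 : ∃ c ∈ E, ∑ i, io (c i : K) * (lam i * w i) ≠ 0 := by
    by_contra hcon
    push Not at hcon
    exact hwV ((hE2 w).2 hcon)
  obtain ⟨c, hc, hcw⟩ := h1
  refine ⟨c, hE1 c hc, ?_, fun h0 => hcw ?_⟩
  · have h2 := (hE2 _).1 hs4 c hc
    rw [← h2]
    refine Finset.sum_congr rfl fun i _ => ?_
    rw [map_mul, MvPolynomial.eval_C, MvPolynomial.eval_X, point, mul_assoc]
  · have h2 := congrArg (MvPolynomial.eval u) h0
    rw [map_sum, map_zero] at h2
    rw [← h2]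
    refine Finset.sum_congr rfl fun i _ => ?_
    rw [map_mul, map_mul, MvPolynomial.eval_C, MvPolynomial.eval_C, MvPolynomial.eval_X, hu, mul_assoc (lam i)]

end Pool.Agent.Results.MP_1e27bd_ag.SiegelModularVarieties
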